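import Mathlib

set_option autoImplicit false

open Complex Metric Set Filter Topology InnerProductSpace

namespace Pool.Agent.Results.MP_29b22c_an.Discontinuous

/-- `f` is a conformal harmonic map from the unit disc into `Ω ⊆ ℝⁿ` : it is `C²` on the disc, takes
values in `Ω`, satisfies `|f_x| = |f_y|`, `f_x · f_y = 0` and `f_xx + f_yy = 0` on the disc. -/
def IsConformalHarmonicDisc {n : ℕ} (Ω : Set (EuclideanSpace ℝ (Fin n)))
    (f : ℂ → EuclideanSpace ℝ (Fin n)) : Prop :=
  ContDiffOn ℝ 2 f (ball (0 : ℂ) 1) ∧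
  (∀ z ∈ ball (0 : ℂ) 1, f z ∈ Ω) ∧
  (∀ z ∈ ball (0 : ℂ) 1, ‖fderiv ℝ f z 1‖ = ‖fderiv ℝ f z Complex.I‖ ∧
    inner ℝ (fderiv ℝ f z 1) (fderiv ℝ f z Complex.I) = 0) ∧
  (∀ z ∈ ball (0 : ℂ) 1,
    fderiv ℝ (fun w => fderiv ℝ f w (1 : ℂ)) z (1 : ℂ) +
      fderiv ℝ (fun w => fderiv ℝ f w Complex.I) z Complex.I = 0)

open Classical in
/-- The minimal pseudometric `g_Ω(x,u)` of `Ω ⊆ ℝⁿ`: it is `0` for `u = 0`, and the infimum of all
`1/r` with `r > 0` such that some conformal harmonic disc `f` in `Ω` has `f(0) = x`,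
`f_x(0) = r u` otherwise. -/
noncomputable def minimalPseudometric {n : ℕ} (Ω : Set (EuclideanSpace ℝ (Fin n)))
    (x u : EuclideanSpace ℝ (Fin n)) : ℝ :=
  if u = 0 then 0 else
    sInf {t : ℝ | ∃ r : ℝ, 0 < r ∧ t = 1 / r ∧ ∃ f : ℂ → EuclideanSpace ℝ (Fin n),
      IsConformalHarmonicDisc Ω f ∧ f 0 = x ∧ fderiv ℝ f 0 1 = r • u}

section harmonic

variable {n : ℕ}

/-- Coordinates of a conformal harmonic disc are harmonic. -/
theorem harmonic_coord {Ω : Set (EuclideanSpace ℝ (Fin n))} {f : ℂ → EuclideanSpace ℝ (Fin n)}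
    (hf : IsConformalHarmonicDisc Ω f) (i : Fin n) {z : ℂ}
    (hz : z ∈ ball (0 : ℂ) 1) : HarmonicAt (fun w => f w i) z := by
  obtain ⟨hc, -, -, hh⟩ := hf
  have hcoord : ContDiffOn ℝ 2 (fun w => f w i) (ball 0 1) :=
    (EuclideanSpace.proj i : EuclideanSpace ℝ (Fin n) →L[ℝ] ℝ).contDiff.comp_contDiffOn hc
  refine ⟨hcoord.contDiffAt (isOpen_ball.mem_nhds hz), ?_⟩
  filter_upwards [isOpen_ball.mem_nhds hz] with w hw
  rw [laplacian_eq_iteratedFDeriv_complexPlane]
  simp only [iteratedFDeriv_two_apply, Fin.isValue,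
      Matrix.cons_val_zero, Matrix.cons_val_one, Matrix.cons_val_fin_one, Pi.zero_apply]
  have hcf : ContDiffAt ℝ 2 f w := hc.contDiffAt (isOpen_ball.mem_nhds hw)
  have hdf : ContDiffAt ℝ 1 (fderiv ℝ f) w := hcf.fderiv_right (by norm_num)
  have hddf : DifferentiableAt ℝ (fderiv ℝ f) w := hdf.differentiableAt (by norm_num)
  have h1 : fderiv ℝ (fun w => f w i) =ᶠ[𝓝 w]
      fun y => (EuclideanSpace.proj i : EuclideanSpace ℝ (Fin n) →L[ℝ] ℝ).comp (fderiv ℝ f y) := by
    filter_upwards [isOpen_ball.mem_nhds hw] with y hy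
    have hd : DifferentiableAt ℝ f y := (hc.contDiffAt (isOpen_ball.mem_nhds hy)).differentiableAt
      (by norm_num)
    exact ((EuclideanSpace.proj i : EuclideanSpace ℝ (Fin n) →L[ℝ] ℝ).hasFDerivAt.comp y
      hd.hasFDerivAt).fderiv
  rw [h1.fderiv_eq]
  have key : ∀ v : ℂ, (fderiv ℝ (fun y => (EuclideanSpace.proj i :
      EuclideanSpace ℝ (Fin n) →L[ℝ] ℝ).comp (fderiv ℝ f y)) w v) v
      = (fderiv ℝ (fun y => fderiv ℝ f y v) w v) i := by
    intro v
    have e1 : fderiv ℝ (fun y => (EuclideanSpace.proj i :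
        EuclideanSpace ℝ (Fin n) →L[ℝ] ℝ).comp (fderiv ℝ f y)) w
        = (ContinuousLinearMap.compL ℝ ℂ (EuclideanSpace ℝ (Fin n)) ℝ (EuclideanSpace.proj i)).comp
          (fderiv ℝ (fderiv ℝ f) w) :=
      (((ContinuousLinearMap.compL ℝ ℂ (EuclideanSpace ℝ (Fin n)) ℝ
        (EuclideanSpace.proj i)).hasFDerivAt).comp w hddf.hasFDerivAt).fderiv
    have e2 : fderiv ℝ (fun y => fderiv ℝ f y v) w
        = (ContinuousLinearMap.apply ℝ (EuclideanSpace ℝ (Fin n)) v).comp
          (fderiv ℝ (fderiv ℝ f) w) :=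
      (((ContinuousLinearMap.apply ℝ (EuclideanSpace ℝ (Fin n)) v).hasFDerivAt).comp w
        hddf.hasFDerivAt).fderiv
    rw [e1, e2]
    simp
  rw [key 1, key I]
  have := congrArg (fun x : EuclideanSpace ℝ (Fin n) => x i) (hh w hw)
  simpa using this

/-- A harmonic function vanishing at the centre has a zero on each circle. -/
theorem exists_zero_circle {u : ℂ → ℝ} (hu : ∀ z ∈ ball (0 : ℂ) 1, HarmonicAt u z) (h0 : u 0 = 0)
    {t : ℝ} (ht0 : 0 < t) (ht1 : t < 1) : ∃ z : ℂ, ‖z‖ = t ∧ u z = 0 := by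
  have hcont : ContinuousOn u (sphere (0 : ℂ) t) := by
    intro z hz
    have hz' : z ∈ ball (0 : ℂ) 1 := by
      rw [mem_sphere_zero_iff_norm] at hz
      rw [mem_ball_zero_iff]; linarith
    exact (hu z hz').1.continuousAt.continuousWithinAt
  have hharm : HarmonicOnNhd u (closedBall (0 : ℂ) |t|) := by
    intro z hz
    apply hu
    rw [mem_closedBall_zero_iff, abs_of_pos ht0] at hz
    rw [mem_ball_zero_iff]; linarith
  have hnonneg : ∀ v : ℂ → ℝ, ContinuousOn v (sphere (0 : ℂ) t) →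
      HarmonicOnNhd v (closedBall (0 : ℂ) |t|) → v 0 = 0 → ∃ z ∈ sphere (0 : ℂ) t, 0 ≤ v z := by
    intro v hv hvh hv0
    by_contra hcon
    push Not at hcon
    obtain ⟨m, hm, hmax⟩ := (isCompact_sphere (0 : ℂ) t).exists_isMaxOn
      (NormedSpace.sphere_nonempty.mpr ht0.le) hv
    have h1 : Real.circleAverage v 0 t ≤ v m := by
      apply Real.circleAverage_mono_on_of_le_circle
      · exact ContinuousOn.circleIntegrable ht0.le hv
      · intro x hx
        rw [abs_of_pos ht0] at hx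
        exact hmax hx
    rw [hvh.circleAverage_eq, hv0] at h1
    linarith [hcon m hm]
  obtain ⟨a, ha, hua⟩ := hnonneg u hcont hharm h0
  obtain ⟨b, hb, hub⟩ := hnonneg (fun z => - u z) hcont.neg
    (fun z hz => (hharm z hz).neg) (by simp [h0])
  have hconn : IsPreconnected (sphere (0 : ℂ) t) :=
    isPreconnected_sphere (by rw [rank_real_complex]; norm_num) 0 t
  obtain ⟨z, hz, hz0⟩ := hconn.intermediate_value hb ha hcont (show (0 : ℝ) ∈ Icc (u b) (u a) from
    ⟨by linarith, hua⟩)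
  exact ⟨z, mem_sphere_zero_iff_norm.mp hz, hz0⟩

/-- Second order bound for a harmonic function bounded above by `1` and vanishing at `0`. -/
theorem taylor_bound {u : ℂ → ℝ} (hu : ∀ z ∈ ball (0 : ℂ) 1, HarmonicAt u z) (h0 : u 0 = 0)
    (hle : ∀ z ∈ ball (0 : ℂ) 1, u z ≤ 1) {z : ℂ} (hz : ‖z‖ < 1 / 2) :
    |u z - fderiv ℝ u 0 z| ≤ 16 * ‖z‖ ^ 2 := by
  have hharm : HarmonicOnNhd u (ball (0 : ℂ) 1) := hu
  obtain ⟨F, hFan, hFre⟩ := hharm.exists_analyticOnNhd_ball_re_eq
  have hFd : DifferentiableOn ℂ F (ball 0 1) := hFan.differentiableOn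
  have hc0 : (0 : ℂ) ∈ ball (0 : ℂ) 1 := mem_ball_self one_pos
  set G : ℂ → ℂ := fun w => F w - F 0 with hG
  have hGd : DifferentiableOn ℂ G (ball 0 1) := hFd.sub_const _
  have hGre : ∀ w ∈ ball (0 : ℂ) 1, (G w).re = u w := by
    intro w hw
    have h1 := hFre hw
    have h2 := hFre hc0
    simp only at h1 h2
    simp [hG, h1, h2, h0]
  have hG0 : G 0 = 0 := by simp [hG]
  have hbd : ∀ w ∈ ball (0 : ℂ) (1 / 2), ‖G w‖ ≤ 2 := by
    intro w hw
    rw [mem_ball_zero_iff] at hw
    have hw1 : w ∈ ball (0 : ℂ) 1 := by rw [mem_ball_zero_iff]; linarith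
    have := borelCaratheodory_zero (M := 1) (R := 1) one_pos hGd (fun x hx => by
      show (G x).re ≤ 1
      rw [hGre x hx]; exact hle x hx) one_pos hw1 hG0
    refine this.trans ?_
    rw [div_le_iff₀ (by linarith)]
    linarith
  have hsub : ball (0 : ℂ) (1 / 2) ⊆ ball 0 1 := ball_subset_ball (by norm_num)
  have hder : ‖deriv G 0‖ ≤ 2 / (1 / 2) := by
    apply norm_deriv_le_div_of_mapsTo_ball (hGd.mono hsub)
    · intro w hw
      rw [hG0, mem_closedBall_zero_iff]
      exact hbd w hw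
    · norm_num
  set H : ℂ → ℂ := fun w => G w - deriv G 0 * w with hH
  have hGda : HasDerivAt G (deriv G 0) 0 :=
    (hGd.differentiableAt (isOpen_ball.mem_nhds hc0)).hasDerivAt
  have hH0 : H 0 = 0 := by simp [hH, hG0]
  have hHd : DifferentiableOn ℂ H (ball 0 (1 / 2)) :=
    (hGd.mono hsub).sub ((differentiable_id.const_mul _).differentiableOn)
  have hHm : MapsTo H (ball 0 (1 / 2)) (closedBall (H 0) 4) := by
    intro w hw
    rw [hH0, mem_closedBall_zero_iff]
    have h1 := hbd w hw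
    rw [mem_ball_zero_iff] at hw
    calc ‖H w‖ ≤ ‖G w‖ + ‖deriv G 0 * w‖ := norm_sub_le _ _
      _ ≤ 2 + 2 / (1 / 2) * (1 / 2) := by
          rw [norm_mul]
          gcongr
      _ = 4 := by norm_num
  have hHo : (fun w => H w - H 0) =o[𝓝 0] (fun w : ℂ => ‖w - 0‖ ^ 1) := by
    have := hGda.isLittleO
    simp only [pow_one, sub_zero, hH0]
    refine (this.congr' ?_ ?_).norm_right
    · filter_upwards with w
      simp [hH, hG0, mul_comm]
    · filter_upwards with w
      simp
  have hzb : z ∈ ball (0 : ℂ) (1 / 2) := mem_ball_zero_iff.mpr hz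
  have hmain := dist_le_mul_div_pow_of_mapsTo_ball_of_isLittleO hHd hHm hHo hzb
  rw [hH0, dist_zero_right, dist_zero_right] at hmain
  have hre : u z - fderiv ℝ u 0 z = (H z).re := by
    have h1 : HasFDerivAt u (reCLM.comp ((ContinuousLinearMap.toSpanSingleton ℂ
        (deriv G 0)).restrictScalars ℝ)) 0 := by
      have h2 := (reCLM.hasFDerivAt (x := G 0)).comp (0 : ℂ) (hGda.hasFDerivAt.restrictScalars ℝ)
      refine h2.congr_of_eventuallyEq ?_
      filter_upwards [isOpen_ball.mem_nhds hc0] with w hw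
      exact (hGre w hw).symm
    rw [h1.fderiv, ← hGre z (hsub hzb)]
    simp [hH, mul_comm]
  rw [hre]
  refine (abs_re_le_norm _).trans (hmain.trans ?_)
  have : 4 * (‖z‖ / (1 / 2)) ^ (1 + 1) = 16 * ‖z‖ ^ 2 := by ring
  rw [this]

end harmonic

section domain

variable {n : ℕ}

theorem single_eq_smul (k : Fin n) (t : ℝ) :
    (EuclideanSpace.single k t : EuclideanSpace ℝ (Fin n)) = t • EuclideanSpace.single k (1 : ℝ) := by
  ext i
  by_cases h : i = k
  · subst h; simp
  · simp [h]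

/-- Forget the coordinate `k`. -/
noncomputable def pr (k : Fin n) : EuclideanSpace ℝ (Fin n) →L[ℝ] EuclideanSpace ℝ (Fin n) :=
  ContinuousLinearMap.id ℝ _ -
    (EuclideanSpace.proj k : EuclideanSpace ℝ (Fin n) →L[ℝ] ℝ).smulRight
      (EuclideanSpace.single k (1 : ℝ))

theorem pr_apply (k : Fin n) (x : EuclideanSpace ℝ (Fin n)) :
    pr k x = x - x k • EuclideanSpace.single k (1 : ℝ) := by
  simp [pr]

theorem pr_coord_ne {k i : Fin n} (h : i ≠ k) (x : EuclideanSpace ℝ (Fin n)) : pr k x i = x i := by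
  rw [pr_apply]
  simp [h]

theorem pr_single_self (k : Fin n) (t : ℝ) : pr k (EuclideanSpace.single k t) = 0 := by
  rw [pr_apply]
  ext i
  by_cases h : i = k
  · subst h; simp
  · simp [h]

/-- The domain: a cylinder minus a flat collar around a small hole. -/
def dom (k : Fin n) (s : ℝ) : Set (EuclideanSpace ℝ (Fin n)) :=
  {x | ‖pr k x‖ < 1 ∧ |x k| < 1 ∧ (x k = 0 → ‖pr k x‖ < s)}

/-- Upper part. -/
def dU (k : Fin n) : Set (EuclideanSpace ℝ (Fin n)) := {x | ‖pr k x‖ < 1 ∧ 0 < x k ∧ x k < 1}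
/-- Lower part. -/
def dL (k : Fin n) : Set (EuclideanSpace ℝ (Fin n)) := {x | ‖pr k x‖ < 1 ∧ -1 < x k ∧ x k < 0}
/-- Middle part. -/
def dM (k : Fin n) (s : ℝ) : Set (EuclideanSpace ℝ (Fin n)) := {x | ‖pr k x‖ < s ∧ -1 < x k ∧ x k < 1}

theorem dom_eq (k : Fin n) {s : ℝ} (hs : s < 1) : dom k s = (dU k ∪ dM k s) ∪ dL k := by
  ext x
  simp only [dom, dU, dL, dM, mem_ofPred_eq, mem_union, abs_lt]
  constructor
  · rintro ⟨h1, ⟨h2, h3⟩, h4⟩
    rcases lt_trichotomy (x k) 0 with h | h | h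
    · right; exact ⟨h1, h2, h⟩
    · left; right; exact ⟨h4 h, h2, h3⟩
    · left; left; exact ⟨h1, h, h3⟩
  · rintro ((⟨h1, h2, h3⟩ | ⟨h1, h2, h3⟩) | ⟨h1, h2, h3⟩)
    · exact ⟨h1, ⟨by linarith, h3⟩, fun h => by linarith⟩
    · exact ⟨by linarith, ⟨h2, h3⟩, fun _ => h1⟩
    · exact ⟨h1, ⟨h2, by linarith⟩, fun h => by linarith⟩

theorem continuous_coord (k : Fin n) : Continuous (fun x : EuclideanSpace ℝ (Fin n) => x k) :=
  (EuclideanSpace.proj k : EuclideanSpace ℝ (Fin n) →L[ℝ] ℝ).continuous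

theorem isOpen_dom (k : Fin n) {s : ℝ} (hs : s < 1) : IsOpen (dom k s) := by
  rw [dom_eq k hs]
  have hn : Continuous (fun x : EuclideanSpace ℝ (Fin n) => ‖pr k x‖) := (pr k).continuous.norm
  have hk := continuous_coord k
  refine IsOpen.union (IsOpen.union ?_ ?_) ?_
  · exact (isOpen_lt hn continuous_const).inter
      ((isOpen_lt continuous_const hk).inter (isOpen_lt hk continuous_const))
  · exact (isOpen_lt hn continuous_const).inter
      ((isOpen_lt continuous_const hk).inter (isOpen_lt hk continuous_const))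
  · exact (isOpen_lt hn continuous_const).inter
      ((isOpen_lt continuous_const hk).inter (isOpen_lt hk continuous_const))

theorem convex_part (k : Fin n) (a b c : ℝ) :
    Convex ℝ {x : EuclideanSpace ℝ (Fin n) | ‖pr k x‖ < a ∧ b < x k ∧ x k < c} := by
  have h1 : Convex ℝ {x : EuclideanSpace ℝ (Fin n) | ‖pr k x‖ < a} := by
    have h := (convexOn_norm (convex_univ (𝕜 := ℝ) (E := EuclideanSpace ℝ (Fin n)))).comp_linearMap
      (pr k).toLinearMap
    have := h.convex_lt a
    simpa using this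
  have h2 : Convex ℝ {x : EuclideanSpace ℝ (Fin n) | b < x k} :=
    convex_halfSpace_gt
      (f := fun x : EuclideanSpace ℝ (Fin n) => x k)
      (EuclideanSpace.proj k : EuclideanSpace ℝ (Fin n) →L[ℝ] ℝ).toLinearMap.isLinear b
  have h3 : Convex ℝ {x : EuclideanSpace ℝ (Fin n) | x k < c} :=
    convex_halfSpace_lt
      (f := fun x : EuclideanSpace ℝ (Fin n) => x k)
      (EuclideanSpace.proj k : EuclideanSpace ℝ (Fin n) →L[ℝ] ℝ).toLinearMap.isLinear c
  exact h1.inter (h2.inter h3)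

theorem isConnected_dom (k : Fin n) {s : ℝ} (hs0 : 0 < s) (hs : s < 1) : IsConnected (dom k s) := by
  rw [dom_eq k hs]
  have hU : IsPreconnected (dU k) := (convex_part k 1 0 1).isPreconnected
  have hL : IsPreconnected (dL k) := (convex_part k 1 (-1) 0).isPreconnected
  have hM : IsPreconnected (dM k s) := (convex_part k s (-1) 1).isPreconnected
  have hpt : ∀ t : ℝ, ‖pr k (EuclideanSpace.single k t)‖ = 0 := by
    intro t; rw [pr_single_self]; simp
  have h1 : EuclideanSpace.single k (1 / 2 : ℝ) ∈ dU k := by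
    refine ⟨by rw [hpt]; norm_num, by simp, ?_⟩
    simp; norm_num
  have h2 : EuclideanSpace.single k (1 / 2 : ℝ) ∈ dM k s := by
    refine ⟨by rw [hpt]; exact hs0, ?_, ?_⟩
    · simp; norm_num
    · simp; norm_num
  have h3 : EuclideanSpace.single k (-1 / 2 : ℝ) ∈ dL k := by
    refine ⟨by rw [hpt]; norm_num, ?_, ?_⟩
    · simp; norm_num
    · simp; norm_num
  have h4 : EuclideanSpace.single k (-1 / 2 : ℝ) ∈ dM k s := by
    refine ⟨by rw [hpt]; exact hs0, ?_, ?_⟩
    · simp; norm_num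
    · simp; norm_num
  refine ⟨⟨_, Or.inl (Or.inl h1)⟩, ?_⟩
  refine IsPreconnected.union _ (Or.inr h4) h3 ?_ hL
  exact IsPreconnected.union _ h1 h2 hU hM

end domain

section discs

variable {n : ℕ}

/-- The affine conformal disc with centre `a`, spanned by `ρ e_i`, `ρ e_j`. -/
noncomputable def flat (a : EuclideanSpace ℝ (Fin n)) (i j : Fin n) (ρ : ℝ) (z : ℂ) :
    EuclideanSpace ℝ (Fin n) :=
  a + (z.re • EuclideanSpace.single i ρ + z.im • EuclideanSpace.single j ρ)

/-- Linear part of the affine disc. -/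
noncomputable def flatL (i j : Fin n) (ρ : ℝ) : ℂ →L[ℝ] EuclideanSpace ℝ (Fin n) :=
  reCLM.smulRight (EuclideanSpace.single i ρ) + imCLM.smulRight (EuclideanSpace.single j ρ)

theorem flat_hasFDerivAt (a : EuclideanSpace ℝ (Fin n)) (i j : Fin n) (ρ : ℝ) (z : ℂ) :
    HasFDerivAt (flat a i j ρ) (flatL i j ρ) z := by
  have h : flat a i j ρ = fun z => a + flatL i j ρ z := by
    ext1 w; simp [flat, flatL]
  rw [h]
  exact (flatL i j ρ).hasFDerivAt.const_add a

theorem flat_conformal (a : EuclideanSpace ℝ (Fin n)) {i j : Fin n} (hij : i ≠ j) (ρ : ℝ)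
    {Ω : Set (EuclideanSpace ℝ (Fin n))} (hΩ : ∀ z ∈ ball (0 : ℂ) 1, flat a i j ρ z ∈ Ω) :
    IsConformalHarmonicDisc Ω (flat a i j ρ) := by
  refine ⟨?_, hΩ, ?_, ?_⟩
  · have h : flat a i j ρ = fun z => a + flatL i j ρ z := by
      ext1 w; simp [flat, flatL]
    rw [h]
    exact (contDiff_const.add (flatL i j ρ).contDiff).contDiffOn
  · intro z _
    rw [(flat_hasFDerivAt a i j ρ z).fderiv]
    constructor
    · simp [flatL]
    · simp [flatL, EuclideanSpace.inner_single_left, hij]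
  · intro z _
    simp_rw [(flat_hasFDerivAt a i j ρ _).fderiv]
    simp

theorem upper {k i j : Fin n} (hik : i ≠ k) (hjk : j ≠ k) (hij : i ≠ j) {s t : ℝ}
    (ht0 : 0 < t) (ht1 : t < 1) :
    minimalPseudometric (dom k s) (EuclideanSpace.single k t) (EuclideanSpace.single i 1) ≤ 1 := by
  rw [minimalPseudometric, if_neg (by simp)]
  apply csInf_le
  · refine ⟨0, ?_⟩
    rintro x ⟨r, hr, rfl, -⟩
    positivity
  · refine ⟨1, one_pos, by norm_num, flat (EuclideanSpace.single k t) i j 1, ?_, ?_, ?_⟩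
    · apply flat_conformal _ hij
      intro z hz
      rw [mem_ball_zero_iff] at hz
      have hk : flat (EuclideanSpace.single k t) i j 1 z k = t := by
        simp [flat, hik.symm, hjk.symm]
      refine ⟨?_, ?_, ?_⟩
      · have h1 : pr k (flat (EuclideanSpace.single k t) i j 1 z) =
            z.re • EuclideanSpace.single i 1 + z.im • EuclideanSpace.single j 1 := by
          rw [pr_apply, hk, flat, single_eq_smul k t]
          abel
        rw [h1]
        have h2 : ‖z.re • EuclideanSpace.single i (1 : ℝ) + z.im • EuclideanSpace.single j (1 : ℝ)‖ ^ 2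
            = ‖z‖ ^ 2 := by
          rw [norm_add_sq_real]
          rw [norm_smul, norm_smul, inner_smul_left, inner_smul_right]
          rw [← normSq_eq_norm_sq, normSq_apply]
          simp [EuclideanSpace.inner_single_left, hij, mul_pow]
          ring
        have h3 : ‖z‖ ^ 2 < 1 := by nlinarith [norm_nonneg z]
        rw [← h2] at h3
        nlinarith [norm_nonneg (z.re • EuclideanSpace.single i (1 : ℝ) +
          z.im • EuclideanSpace.single j (1 : ℝ))]
      · rw [hk, abs_of_pos ht0]; exact ht1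
      · intro h
        rw [hk] at h
        linarith
    · simp [flat]
    · rw [(flat_hasFDerivAt _ i j 1 0).fderiv]
      simp [flatL]

/-- The estimate at the origin. -/
theorem lower_aux (hn : 0 < n) {k : Fin n} {u : EuclideanSpace ℝ (Fin n)} (hu : ‖u‖ = 1)
    {f : ℂ → EuclideanSpace ℝ (Fin n)} (hf : IsConformalHarmonicDisc (dom k (1 / (256 * n))) f)
    (hf0 : f 0 = 0) {r : ℝ} (hr : 0 < r) (hfr : fderiv ℝ f 0 1 = r • u) : r ≤ 1 / 2 := by
  have hn' : (1 : ℝ) ≤ n := by exact_mod_cast hn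
  have hc0 : (0 : ℂ) ∈ ball (0 : ℂ) 1 := mem_ball_self one_pos
  set t : ℝ := 1 / (64 * n) with ht
  have ht0 : 0 < t := by positivity
  have ht1 : t ≤ 1 / 64 := by
    rw [ht]
    apply one_div_le_one_div_of_le (by norm_num)
    linarith
  have hharm : ∀ i : Fin n, ∀ z ∈ ball (0 : ℂ) 1, HarmonicAt (fun w => f w i) z :=
    fun i z hz => harmonic_coord hf i hz
  obtain ⟨z, hzt, hz0⟩ := exists_zero_circle (hharm k) (by simp [hf0]) ht0 (by linarith)
  have hzb : z ∈ ball (0 : ℂ) 1 := by rw [mem_ball_zero_iff]; linarith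
  have hfz := hf.2.1 z hzb
  have hnorm : ‖f z‖ < 1 / (256 * n) := by
    have h1 := hfz.2.2 hz0
    rw [pr_apply] at h1
    simp only at hz0
    rw [hz0] at h1
    simpa using h1
  -- coordinates are at most one
  have hle : ∀ i : Fin n, ∀ z ∈ ball (0 : ℂ) 1, f z i ≤ 1 := by
    intro i z hz
    have h1 := hf.2.1 z hz
    by_cases hik : i = k
    · subst hik
      exact (le_abs_self _).trans h1.2.1.le
    · rw [← pr_coord_ne hik]
      exact (le_abs_self _).trans ((PiLp.norm_apply_le (pr k (f z)) i).trans h1.1.le)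
  have hfd : DifferentiableAt ℝ f 0 :=
    (hf.1.contDiffAt (isOpen_ball.mem_nhds hc0)).differentiableAt (by norm_num)
  have hcoord : ∀ i : Fin n, fderiv ℝ (fun w => f w i) 0 z = (fderiv ℝ f 0 z) i := by
    intro i
    have := ((EuclideanSpace.proj i : EuclideanSpace ℝ (Fin n) →L[ℝ] ℝ).hasFDerivAt.comp (0 : ℂ)
      hfd.hasFDerivAt).fderiv
    have e : fderiv ℝ (fun w => f w i) 0 =
      (EuclideanSpace.proj i : EuclideanSpace ℝ (Fin n) →L[ℝ] ℝ).comp (fderiv ℝ f 0) := this
    rw [e]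
    simp
  have htay : ∀ i : Fin n, |(f z - fderiv ℝ f 0 z) i| ≤ 16 * t ^ 2 := by
    intro i
    have := taylor_bound (hharm i) (by simp [hf0]) (hle i) (z := z) (by linarith)
    rw [hcoord i, hzt] at this
    simpa using this
  have hrem : ‖f z - fderiv ℝ f 0 z‖ ≤ 16 * n * t ^ 2 := by
    have h1 : ‖f z - fderiv ℝ f 0 z‖ ≤ ∑ i : Fin n, ‖(f z - fderiv ℝ f 0 z) i‖ := by
      have h2 : f z - fderiv ℝ f 0 z =
          ∑ i : Fin n, EuclideanSpace.single i ((f z - fderiv ℝ f 0 z) i) := by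
        ext j
        simp
      calc ‖f z - fderiv ℝ f 0 z‖ = ‖∑ i : Fin n, EuclideanSpace.single i
            ((f z - fderiv ℝ f 0 z) i)‖ := by rw [← h2]
        _ ≤ ∑ i : Fin n, ‖EuclideanSpace.single i ((f z - fderiv ℝ f 0 z) i)‖ := norm_sum_le _ _
        _ = _ := by
          apply Finset.sum_congr rfl
          intro i _
          simp
    refine h1.trans ?_
    calc ∑ i : Fin n, ‖(f z - fderiv ℝ f 0 z) i‖ ≤ ∑ _i : Fin n, 16 * t ^ 2 :=
          Finset.sum_le_sum (fun i _ => htay i)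
      _ = 16 * n * t ^ 2 := by
          simp
          ring
  have hlin : ‖fderiv ℝ f 0 z‖ = r * t := by
    obtain ⟨h1, h2⟩ := hf.2.2.1 0 hc0
    have hz' : fderiv ℝ f 0 z = z.re • fderiv ℝ f 0 1 + z.im • fderiv ℝ f 0 Complex.I := by
      rw [← map_smul, ← map_smul, ← map_add]
      congr 1
      apply Complex.ext <;> simp
    have hnr : ‖fderiv ℝ f 0 1‖ = r := by
      rw [hfr, norm_smul, hu, mul_one, Real.norm_eq_abs, abs_of_pos hr]
    have h3 : ‖fderiv ℝ f 0 z‖ ^ 2 = (r * t) ^ 2 := by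
      have h4 : t ^ 2 = z.re * z.re + z.im * z.im := by
        rw [← hzt, ← normSq_eq_norm_sq, normSq_apply]
      rw [hz', norm_add_sq_real, norm_smul, norm_smul, inner_smul_left, inner_smul_right, h2,
        ← h1, hnr, mul_pow r t, h4]
      simp [mul_pow]
      ring
    exact (sq_eq_sq₀ (norm_nonneg _) (by positivity)).mp h3
  have hfin : r * t ≤ 1 / (256 * n) + 16 * n * t ^ 2 := by
    rw [← hlin]
    calc ‖fderiv ℝ f 0 z‖ = ‖f z - (f z - fderiv ℝ f 0 z)‖ := by rw [sub_sub_cancel]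
      _ ≤ ‖f z‖ + ‖f z - fderiv ℝ f 0 z‖ := norm_sub_le _ _
      _ ≤ _ := by linarith
  have h5 : 1 / (256 * n) + 16 * n * t ^ 2 = 1 / 2 * t := by
    rw [ht]
    field_simp
    norm_num
  rw [h5] at hfin
  exact le_of_mul_le_mul_right hfin ht0

theorem lower (hn : 0 < n) {k i j : Fin n} (hik : i ≠ k) (hjk : j ≠ k) (hij : i ≠ j) :
    2 ≤ minimalPseudometric (dom k (1 / (256 * n))) 0 (EuclideanSpace.single i 1) := by
  have hn' : (1 : ℝ) ≤ n := by exact_mod_cast hn
  have hs0 : (0 : ℝ) < 1 / (256 * n) := by positivity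
  have hs1 : (1 : ℝ) / (256 * n) ≤ 1 / 256 := by
    apply one_div_le_one_div_of_le (by norm_num)
    linarith
  rw [minimalPseudometric, if_neg (by simp)]
  apply le_csInf
  · refine ⟨_, 1 / (256 * n), hs0, rfl, flat 0 i j (1 / (256 * n)), ?_, ?_, ?_⟩
    · apply flat_conformal _ hij
      intro z hz
      rw [mem_ball_zero_iff] at hz
      have hk : flat 0 i j (1 / (256 * n)) z k = 0 := by
        simp [flat, hik.symm, hjk.symm]
      have h1 : pr k (flat 0 i j (1 / (256 * n)) z) =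
            z.re • EuclideanSpace.single i (1 / (256 * n) : ℝ) +
            z.im • EuclideanSpace.single j (1 / (256 * n) : ℝ) := by
        rw [pr_apply, hk]
        simp [flat]
      have h2 : ‖z.re • EuclideanSpace.single i (1 / (256 * n) : ℝ) +
            z.im • EuclideanSpace.single j (1 / (256 * n) : ℝ)‖ ^ 2
            = (1 / (256 * n)) ^ 2 * ‖z‖ ^ 2 := by
        rw [norm_add_sq_real]
        rw [norm_smul, norm_smul, inner_smul_left, inner_smul_right]
        rw [← normSq_eq_norm_sq, normSq_apply]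
        rw [PiLp.norm_single, PiLp.norm_single, EuclideanSpace.inner_single_left]
        simp only [PiLp.single_apply, hij, if_false, mul_zero, add_zero, mul_pow,
          Real.norm_eq_abs, sq_abs]
        ring
      have h3 : ‖z.re • EuclideanSpace.single i (1 / (256 * n) : ℝ) +
            z.im • EuclideanSpace.single j (1 / (256 * n) : ℝ)‖ < 1 / (256 * n) := by
        have h4 : ‖z‖ ^ 2 < 1 := by nlinarith [norm_nonneg z]
        have h5 : ‖z.re • EuclideanSpace.single i (1 / (256 * n) : ℝ) +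
            z.im • EuclideanSpace.single j (1 / (256 * n) : ℝ)‖ ^ 2 < (1 / (256 * n)) ^ 2 := by
          rw [h2]
          have : (0 : ℝ) < (1 / (256 * n)) ^ 2 := by positivity
          nlinarith
        exact (sq_lt_sq₀ (norm_nonneg _) hs0.le).mp h5
      refine ⟨?_, ?_, ?_⟩
      · rw [h1]
        linarith
      · rw [hk]; simp
      · intro _
        rw [h1]
        exact h3
    · simp [flat]
    · rw [(flat_hasFDerivAt _ i j _ 0).fderiv, ← single_eq_smul]
      simp [flatL]
  · rintro x ⟨r, hr, rfl, f, hf, hf0, hfr⟩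
    have := lower_aux hn (u := EuclideanSpace.single i 1) (by simp) hf hf0 hr hfr
    rw [le_div_iff₀ hr]
    linarith

end discs

/-- In every `ℝⁿ`, `n ≥ 3`, there is a domain whose minimal pseudometric is not continuous. -/
theorem result : ∀ n : ℕ, 3 ≤ n → ∃ Ω : Set (EuclideanSpace ℝ (Fin n)),
    IsOpen Ω ∧ IsConnected Ω ∧
    ¬ ContinuousOn
      (fun p : EuclideanSpace ℝ (Fin n) × EuclideanSpace ℝ (Fin n) =>
        minimalPseudometric Ω p.1 p.2) (Ω ×ˢ Set.univ) := by
  intro n hn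
  have hn' : (1 : ℝ) ≤ n := by
    have : 1 ≤ n := by omega
    exact_mod_cast this
  have hs0 : (0 : ℝ) < 1 / (256 * n) := by positivity
  have hs1 : (1 : ℝ) / (256 * n) ≤ 1 / 256 := by
    apply one_div_le_one_div_of_le (by norm_num)
    linarith
  set i : Fin n := ⟨0, by omega⟩ with hi
  set j : Fin n := ⟨1, by omega⟩ with hj
  set k : Fin n := ⟨2, by omega⟩ with hk
  have hij : i ≠ j := by simp [hi, hj]
  have hik : i ≠ k := by simp [hi, hk]
  have hjk : j ≠ k := by simp [hj, hk]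
  refine ⟨dom k (1 / (256 * n)), isOpen_dom k (by linarith), isConnected_dom k hs0 (by linarith), ?_⟩
  intro hcont
  set e : EuclideanSpace ℝ (Fin n) := EuclideanSpace.single i 1 with he
  have h0mem : (0 : EuclideanSpace ℝ (Fin n)) ∈ dom k (1 / (256 * n)) := by
    refine ⟨by simp, by simp, fun _ => by simpa using hs0⟩
  have hc := hcont (0, e) ⟨h0mem, mem_univ _⟩
  -- the path
  have hpath : Tendsto (fun t : ℝ => ((EuclideanSpace.single k t : EuclideanSpace ℝ (Fin n)), e))
      (𝓝[Ioo 0 1] 0) (𝓝[dom k (1 / (256 * n)) ×ˢ univ] (0, e)) := by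
    rw [tendsto_nhdsWithin_iff]
    constructor
    · have h1 : Continuous (fun t : ℝ => ((EuclideanSpace.single k t : EuclideanSpace ℝ (Fin n)), e)) := by
        have : (fun t : ℝ => ((EuclideanSpace.single k t : EuclideanSpace ℝ (Fin n)), e)) =
          fun t : ℝ => (t • EuclideanSpace.single k (1 : ℝ), e) := by
          ext1 t; rw [single_eq_smul]
        rw [this]
        fun_prop
      have h2 := h1.tendsto 0
      rw [single_eq_smul k 0, zero_smul] at h2
      exact h2.mono_left nhdsWithin_le_nhds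
    · filter_upwards [self_mem_nhdsWithin] with t ht
      refine ⟨⟨?_, ?_, ?_⟩, mem_univ _⟩
      · rw [pr_single_self]; simp
      · simp [abs_of_pos ht.1, ht.2]
      · intro h
        simp at h
        linarith [ht.1]
  have hlim := hc.tendsto.comp hpath
  have hne : (𝓝[Ioo 0 1] (0 : ℝ)).NeBot := by
    rw [← mem_closure_iff_nhdsWithin_neBot, closure_Ioo (by norm_num)]
    simp
  have hle : minimalPseudometric (dom k (1 / (256 * n))) 0 e ≤ 1 := by
    refine le_of_tendsto hlim ?_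
    filter_upwards [self_mem_nhdsWithin] with t ht
    exact upper hik hjk hij ht.1 ht.2
  have hge := lower (n := n) (by omega) hik hjk hij
  linarith

end Pool.Agent.Results.MP_29b22c_an.Discontinuous
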